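import Pool.Agent.Helper53.CTG.Goals
import Pool.Agent.Helper53.TE.GA

/-!
# PROJECT CTG (MP_8b4d68_lc), packet GA9
-/

namespace Pool.Agent.Helper98.CTG

open Pool.Agent.Helper1.TE
open Pool.Agent.Helper53.CTG
open Pool.Agent.Helper65.LinSpace (dig tab tab_congr dig_tab tab_dig dig_lt tab_lt)
open Pool.Agent.Helper53.TE (wN_addm addm_addm)
open Finset

section

variable {P : ℕ}

theorem modsub9 {d v : ℕ} (hd : d < P) (hv : v ≤ P) :
    ((d + 9 * v) % P + 9 * (P - v)) % P = d := by
  rw [Nat.mod_add_mod, show d + 9 * v + 9 * (P - v) = d + P * 9 by omega,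
    Nat.add_mul_mod_self_left, Nat.mod_eq_of_lt hd]

variable (c : ℕ → ℕ → ℕ) (m L R : ℕ)

theorem ush9_shN (hP : 0 < L + R) (p X : ℕ) (hX : X < (L + R) ^ (m + 2))
    (hv : ∀ i < m + 2, vN c m p i ≤ L + R) : ush9 c m L R p (shN c m L R 9 p X) = X := by
  conv_rhs => rw [← tab_dig X (m + 2) hX]
  unfold ush9
  refine tab_congr fun i hi => ?_
  have h1 : dig (L + R) (shN c m L R 9 p X) i = (dig (L + R) X i + 9 * vN c m p i) % (L + R) := by
    unfold shN
    exact dig_tab (d := fun i => (dig (L + R) X i + 9 * vN c m p i) % (L + R))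
      (fun j _ => Nat.mod_lt _ hP) hi
  rw [h1]
  exact modsub9 (dig_lt hP X i) (hv i hi)

end

theorem gGA9 : GoalGA9 := by
  intro hSHN c m L R K hc p hp z hz
  obtain ⟨X, S⟩ := z
  have hL := hc.hL
  have hR := hc.hR
  have hX : X < (9 * L + R) ^ (m + 2) := hz
  obtain ⟨M, hM⟩ : ∃ M, M = 9 * L := ⟨_, rfl⟩
  rw [← hM] at hX ⊢
  have hP : 0 < M + R := by omega
  have hw : wN c m M R p X < M + R := by
    unfold wN
    exact Nat.mod_lt _ hP
  have hs : R * (wN c m M R p X / R) ≤ wN c m M R p X := Nat.mul_div_le _ _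
  have hsG : wN c m M R p X / R < (M + R) / R + 1 := by
    have := Nat.div_le_div_right (c := R) hw.le
    omega
  have hX' : addm m M R X (R * (wN c m M R p X / R)) < (M + R) ^ (m + 2) := by
    unfold addm
    refine tab_lt (d := fun i => if i = m then (dig (M + R) X m +
      R * (wN c m M R p X / R)) % (M + R) else dig (M + R) X i) ?_
    intro j _
    by_cases h : j = m
    · simp only [h, if_true]
      exact Nat.mod_lt _ hP
    · simp only [if_neg h]
      exact dig_lt hP _ _
  have hv : ∀ i < m + 2, vN c m p i ≤ M + R := by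
    intro i _
    unfold vN
    by_cases h1 : i < m
    · rw [if_pos h1]
      have := hc.le p hp i h1
      omega
    · rw [if_neg h1]
      by_cases h2 : i = m
      · rw [if_pos h2]
        have := hc.nrm_le p hp
        omega
      · rw [if_neg h2]
        omega
  have hu := ush9_shN c m M R hP p _ hX' hv
  have hwX' := wN_addm c m M R hP p X (R * (wN c m M R p X / R)) hs
  have hlt : wN c m M R p (addm m M R X (R * (wN c m M R p X / R))) < R := by
    rw [hwX']
    have := Nat.mod_add_div (wN c m M R p X) R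
    have h2 := Nat.mod_lt (wN c m M R p X) (show R > 0 by omega)
    omega
  have hsh := hSHN c m M R K hR 9 p
    (addm m M R X (R * (wN c m M R p X / R)), ((M + R) / R + 1) * S + wN c m M R p X / R) hX'
  have hhd : (gad9 c m M R K).hd p (X, S) =
    (addm m M R X (R * (wN c m M R p X / R)), ((M + R) / R + 1) * S + wN c m M R p X / R) := rfl
  rw [hhd, hsh]
  show (if wN c m M R p (ush9 c m M R p (shN c m M R 9 p
      (addm m M R X (R * (wN c m M R p X / R))))) < R then
      some (addm m M R (ush9 c m M R p (shN c m M R 9 p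
        (addm m M R X (R * (wN c m M R p X / R)))))
        (M + R - R * ((((M + R) / R + 1) * S + wN c m M R p X / R) % ((M + R) / R + 1))),
        (((M + R) / R + 1) * S + wN c m M R p X / R) / ((M + R) / R + 1))
    else none) = some (X, S)
  rw [hu, if_pos hlt, Nat.mul_add_mod, Nat.mod_eq_of_lt hsG,
    addm_addm m M R hP X _ hX (by omega), Nat.mul_add_div (Nat.succ_pos _), Nat.div_eq_of_lt hsG,
    Nat.add_zero]

end Pool.Agent.Helper98.CTG
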